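import Pool.Agent.H.MP_d5803c_pr.B

set_option autoImplicit false
open MeasureTheory ProbabilityTheory
open scoped Classical

namespace Pool.Agent.Results.MP_d5803c_pr.No

universe u v

/-- `E (ξ η)` for formal sums `ξ η` of functions of finitely many consecutive letters. -/
noncomputable def pair {Ω : Type} [MeasurableSpace Ω] (Q : Measure Ω) (Y : ℕ → Ω → Bool)
    (ξ η : Π₀ n : ℕ, (Fin n → Bool) → ℝ) : ℝ :=
  ξ.sum fun m f => η.sum fun _ g => ∫ ω, f (fun i => Y i ω) * g (fun i => Y (m + i) ω) ∂Q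

/-- Time-homogeneous Markov process with transition kernel `κ` of finite rank. -/
def IsFiniteRankMarkov {Ω : Type u} {S : Type v} [MeasurableSpace Ω] [MeasurableSpace S]
    (P : Measure Ω) (X : ℕ → Ω → S) (κ : Kernel S S) : Prop :=
  IsProbabilityMeasure P ∧ IsMarkovKernel κ ∧ (∀ n, Measurable (X n)) ∧
  (∀ n, P.map (fun ω => (fun i : Fin (n + 1) => X i ω, X (n + 1) ω)) =
    (P.map fun ω (i : Fin (n + 1)) => X i ω).compProd
      (κ.comap (fun h => h (Fin.last n)) (measurable_pi_apply _))) ∧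
  ∃ (r : ℕ) (a : Fin r → S → ℝ) (b : Fin r → SignedMeasure S), (∀ j, Measurable (a j)) ∧
    ∀ x B, MeasurableSet B → (κ x).real B = ∑ j, a j x * b j B

theorem result : ∃ (Q : Measure ℕ) (Y : ℕ → ℕ → Bool), IsProbabilityMeasure Q ∧
    (∀ n, Measurable (Y n)) ∧
    (∃ J : Submodule ℝ (Π₀ n : ℕ, (Fin n → Bool) → ℝ),
      (∀ η, η ∈ J ↔ ∀ ξ, pair Q Y ξ η = 0) ∧
      FiniteDimensional ℝ ((Π₀ n : ℕ, (Fin n → Bool) → ℝ) ⧸ J)) ∧
    ∀ (Ω : Type u) (S : Type v) [MeasurableSpace Ω] [MeasurableSpace S] (P : Measure Ω)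
      (X : ℕ → Ω → S) (κ : Kernel S S) (φ : S → Bool), IsFiniteRankMarkov P X κ → Measurable φ →
      ¬ ∀ n : ℕ, (P.map fun ω (i : Fin n) => φ (X i ω)) = Q.map fun ω (i : Fin n) => Y i ω :=
  ⟨Pool.Agent.H.MP_d5803c_pr.QQ, fun n k => decide (k ≤ n), inferInstance,
    fun _ => measurable_from_top, Pool.Agent.H.MP_d5803c_pr.findim,
    fun _ _ _ _ P X κ φ ⟨_, _, hX, hM, _, a, b, _, hr⟩ hφ h =>
      Pool.Agent.H.MP_d5803c_pr.nofr P X κ φ hφ hX hM a b hr h⟩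

end Pool.Agent.Results.MP_d5803c_pr.No
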